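import Pool.Agent.V8H32.Coh.Hil

/-!
# The decomposition of positive definite functions with integral values
-/

set_option autoImplicit false

namespace Pool.Agent.V8H32.Coh

open Filter Topology Pool.Agent.H235R3.PT
open scoped RealInnerProductSpace

section

variable {G : Type*} [AddCommGroup G] {H : Type*} [NormedAddCommGroup H] [InnerProductSpace ℝ H]

/-- the translates of `g` which are not orthogonal to `g` are finitely many -/
def SimpleV (R : Rep G H) (g : H) : Prop :=
  ∃ F : Finset G, ∀ γ, ⟪R.U γ g, g⟫ ≠ 0 → ∃ y ∈ F, R.U γ g = R.U y g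

theorem simple_of_ultra (R : Rep G H) (g : H)
    (h : ∀ w : Ultrafilter G, (∀ᶠ γ in (w : Filter G), ⟪R.U γ g, g⟫ ≠ 0) →
        ∃ g', ∀ᶠ γ in (w : Filter G), R.U γ g = g') : SimpleV R g := by
  classical
  set S : Set G := {γ | ⟪R.U γ g, g⟫ ≠ 0} with hS
  by_cases hfin : ((fun γ => R.U γ g) '' S).Finite
  · obtain ⟨F, hF1, hF2⟩ := Finset.subset_set_image_iff.1
      (show ((hfin.toFinset : Finset H) : Set H) ⊆ (fun γ => R.U γ g) '' S by
        rw [Set.Finite.coe_toFinset])
    refine ⟨F, fun γ hγ => ?_⟩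
    have h1 : R.U γ g ∈ hfin.toFinset := by
      rw [Set.Finite.mem_toFinset]
      exact ⟨γ, hγ, rfl⟩
    rw [← hF2] at h1
    obtain ⟨y, hy1, hy2⟩ := Finset.mem_image.1 h1
    exact ⟨y, hy1, hy2.symm⟩
  · exfalso
    have hinf : ((fun γ => R.U γ g) '' S).Infinite := hfin
    let l : Filter G := comap (fun γ => R.U γ g) cofinite ⊓ 𝓟 S
    have hl : l.NeBot := by
      rw [Filter.inf_principal_neBot_iff]
      intro t ht
      obtain ⟨c, hc, hct⟩ := ht
      have h1 : (((fun γ => R.U γ g) '' S) \ cᶜ).Nonempty := by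
        apply Set.Infinite.nonempty
        exact hinf.sdiff (by simpa using hc)
      obtain ⟨x, ⟨γ, hγ, rfl⟩, hx⟩ := h1
      refine ⟨γ, hct ?_, hγ⟩
      simpa using hx
    obtain ⟨w, hw⟩ := Ultrafilter.exists_le l
    obtain ⟨g', hg'⟩ := h w (hw (mem_inf_of_right (mem_principal_self S)))
    have h2 : ∀ᶠ γ in (w : Filter G), R.U γ g ≠ g' := by
      apply hw
      apply mem_inf_of_left
      refine ⟨{g'}ᶜ, ?_, fun γ hγ => hγ⟩
      rw [mem_cofinite, compl_compl]
      exact Set.finite_singleton g'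
    obtain ⟨γ, h3, h4⟩ := (hg'.and h2).exists
    exact h4 h3

theorem cohen_hilbert [CompleteSpace H] (R : Rep G H) (n : ℕ) : ∀ v : H, ‖v‖ ^ 2 ≤ n →
    (∀ γ, IsInt ⟪R.U γ v, v⟫) →
    ∃ (r : ℕ) (g : Fin r → H), (∀ γ, ⟪R.U γ v, v⟫ = ∑ i, ⟪R.U γ (g i), g i⟫) ∧
      ∀ i, g i ≠ 0 ∧ (∀ γ, IsInt ⟪R.U γ (g i), g i⟫) ∧ SimpleV R (g i) := by
  induction n with
  | zero =>
    intro v hv _
    have h1 : v = 0 := by
      have : ‖v‖ ^ 2 = 0 := le_antisymm (by exact_mod_cast hv) (by positivity)
      exact norm_eq_zero.1 (pow_eq_zero_iff two_ne_zero |>.1 this)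
    refine ⟨0, Fin.elim0, fun γ => ?_, fun i => Fin.elim0 i⟩
    rw [h1]
    simp
  | succ n ih =>
    intro v hv hint
    by_cases hv0 : v = 0
    · refine ⟨0, Fin.elim0, fun γ => ?_, fun i => Fin.elim0 i⟩
      rw [hv0]
      simp
    obtain ⟨g, hg0, h1, h2, h3⟩ := split hint hv0
    have h1' : ∀ γ, ⟪R.U γ v, g⟫ = ⟪R.U γ g, g⟫ := by
      intro γ
      have h4 := h1 (-γ)
      rw [R.inner_left, neg_neg, R.inner_left, neg_neg, real_inner_comm,
        real_inner_comm (R.U γ g)] at h4
      exact h4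
    have hkey : ∀ γ, ⟪R.U γ (v - g), v - g⟫ = ⟪R.U γ v, v⟫ - ⟪R.U γ g, g⟫ := by
      intro γ
      rw [map_sub, inner_sub_left, inner_sub_right, inner_sub_right, h1, h1']
      ring
    have hnorm : ‖v - g‖ ^ 2 = ‖v‖ ^ 2 - ‖g‖ ^ 2 := by
      have := hkey 0
      rw [R.zero, R.zero, R.zero, real_inner_self_eq_norm_sq, real_inner_self_eq_norm_sq,
        real_inner_self_eq_norm_sq] at this
      exact this
    have hg1 : 1 ≤ ‖g‖ ^ 2 := by
      have h5 := h2 0
      rw [R.zero, real_inner_self_eq_norm_sq] at h5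
      have h6 : ‖g‖ ^ 2 ≠ 0 := by
        have := norm_pos_iff.2 hg0
        positivity
      have h7 := h5.one_le_abs h6
      rwa [abs_of_nonneg (by positivity)] at h7
    obtain ⟨r, g', h4, h5⟩ := ih (v - g) (by
      rw [hnorm]
      push_cast at hv
      linarith) (fun γ => by
        rw [hkey]
        exact (hint γ).sub (h2 γ))
    refine ⟨r + 1, Fin.cons g g', fun γ => ?_, fun i => ?_⟩
    · rw [Fin.sum_univ_succ, Fin.cons_zero]
      simp only [Fin.cons_succ]
      rw [← h4, hkey]
      ring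
    · refine Fin.cases ?_ (fun j => ?_) i
      · rw [Fin.cons_zero]
        exact ⟨hg0, h2, simple_of_ultra R g h3⟩
      · rw [Fin.cons_succ]
        exact h5 j

end

section

/-- the extension of an isometry to the completion -/
noncomputable def complI {E : Type*} [SeminormedAddCommGroup E] [InnerProductSpace ℝ E]
    (f : E →ₗᵢ[ℝ] E) : UniformSpace.Completion E →ₗᵢ[ℝ] UniformSpace.Completion E where
  toLinearMap := ((f.toLinearMap.toAddMonoidHom.completion f.continuous).toRealLinearMap
    UniformSpace.Completion.continuous_map).toLinearMap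
  norm_map' x := by
    have h : Isometry (UniformSpace.Completion.map f) := f.isometry.completion_map
    have h1 := h.dist_eq x 0
    have h2 : UniformSpace.Completion.map f 0 = 0 := by
      have : (0 : UniformSpace.Completion E) = ((0 : E) : UniformSpace.Completion E) := rfl
      rw [this, UniformSpace.Completion.map_coe f.isometry.uniformContinuous, map_zero]
    rw [h2, dist_zero_right, dist_zero_right] at h1
    exact h1

theorem complI_coe {E : Type*} [SeminormedAddCommGroup E] [InnerProductSpace ℝ E]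
    (f : E →ₗᵢ[ℝ] E) (x : E) : complI f (x : UniformSpace.Completion E) = (f x : E) :=
  UniformSpace.Completion.map_coe f.isometry.uniformContinuous x

variable {G : Type*} [AddCommGroup G]

/-- the Hilbert space of a positive definite function -/
abbrev HS (φ : G → ℝ) [Fact (PD φ)] : Type _ := UniformSpace.Completion (V φ)

variable (φ : G → ℝ) [hφ : Fact (PD φ)]

/-- the isometries given by the translations -/
noncomputable def liftI (γ : G) : V φ →ₗᵢ[ℝ] V φ where
  toLinearMap := lift φ (fun x => γ + x)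
  norm_map' u := norm_lift φ (fun x => γ + x) (fun x y => by simp) u

theorem liftI_apply (γ : G) (x : V φ) :
    liftI φ γ x = (Finsupp.mapDomain (fun y => γ + y) (x : G →₀ ℝ) : G →₀ ℝ) := rfl

omit hφ in
theorem mapDomain_aux (a b : G) (x : G →₀ ℝ) : Finsupp.mapDomain (fun y => a + b + y) x =
    Finsupp.mapDomain (fun y => a + y) (Finsupp.mapDomain (fun y => b + y) x) := by
  rw [← Finsupp.mapDomain_comp]
  congr 1
  funext y
  simp [add_assoc]

omit hφ in
theorem mapDomain_aux' (x : G →₀ ℝ) : Finsupp.mapDomain (fun y : G => 0 + y) x = x := by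
  have : (fun y : G => 0 + y) = id := by
    funext y
    simp
  rw [this, Finsupp.mapDomain_id]

theorem rep_add (a b : G) (x : HS φ) :
    complI (liftI φ (a + b)) x = complI (liftI φ a) (complI (liftI φ b) x) := by
  refine UniformSpace.Completion.induction_on x ?_ ?_
  · exact isClosed_eq (complI (liftI φ (a + b))).continuous
      ((complI (liftI φ a)).continuous.comp (complI (liftI φ b)).continuous)
  · intro x
    rw [complI_coe, complI_coe, complI_coe]
    exact congrArg _ (mapDomain_aux a b x)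

theorem rep_zero (x : HS φ) : complI (liftI φ 0) x = x := by
  refine UniformSpace.Completion.induction_on x ?_ ?_
  · exact isClosed_eq (complI (liftI φ 0)).continuous continuous_id
  · intro x
    rw [complI_coe]
    exact congrArg _ (mapDomain_aux' x)

/-- the representation on the Hilbert space of a positive definite function -/
noncomputable def rep : Rep G (HS φ) where
  U γ := complI (liftI φ γ)
  add := rep_add φ
  zero := rep_zero φ

/-- the cyclic vector -/
noncomputable def vec : HS φ := (e φ 0 : V φ)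

theorem rep_vec (γ : G) : (rep φ).U γ (vec φ) = ((e φ γ : V φ) : HS φ) := by
  change complI (liftI φ γ) ((e φ 0 : V φ) : HS φ) = _
  rw [complI_coe]
  congr 1
  change lift φ _ (e φ 0) = _
  rw [lift_e, add_zero]

theorem inner_rep (γ δ : G) :
    ⟪(rep φ).U γ (vec φ), (rep φ).U δ (vec φ)⟫ = φ (γ - δ) := by
  rw [rep_vec, rep_vec, UniformSpace.Completion.inner_coe, inner_e]

theorem inner_rep' (γ : G) : ⟪(rep φ).U γ (vec φ), vec φ⟫ = φ γ := by
  have h := inner_rep φ γ 0
  rw [(rep φ).zero, sub_zero] at h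
  exact h

theorem norm_vec : ‖vec φ‖ ^ 2 = φ 0 := by
  have h := inner_rep' φ 0
  rw [(rep φ).zero, real_inner_self_eq_norm_sq] at h
  exact h

end

section

variable {G : Type*} [AddCommGroup G]

/-- the matrix coefficients of a representation are positive definite -/
theorem pd_coeff {H : Type*} [NormedAddCommGroup H] [InnerProductSpace ℝ H] (R : Rep G H) (g : H) :
    PD fun γ => ⟪R.U γ g, g⟫ := by
  constructor
  · intro x
    rw [R.inner_left, neg_neg, real_inner_comm]
  · intro s u
    have h : ∑ x ∈ s, ∑ y ∈ s, u x * u y * ⟪R.U (x - y) g, g⟫ = ‖∑ x ∈ s, u x • R.U x g‖ ^ 2 := by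
      rw [← real_inner_self_eq_norm_sq, sum_inner]
      refine Finset.sum_congr rfl fun x _ => ?_
      rw [inner_sum]
      refine Finset.sum_congr rfl fun y _ => ?_
      rw [inner_smul_left, inner_smul_right, R.inner_right, ← R.add]
      rw [show -y + x = x - y by abel]
      simp [mul_assoc]
    rw [h]
    positivity

/-- A positive definite function with integral values with finitely many translates that are not
orthogonal to it; the set of the `γ` with `φ γ = φ 0` is a subgroup, `φ` is constant on its cosets and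
different from zero on finitely many of them. -/
structure Simple (φ : G → ℝ) : Prop where
  pd : PD φ
  int : ∀ x, IsInt (φ x)
  ne : φ 0 ≠ 0
  fin : ∃ F : Finset G, ∀ γ, φ γ ≠ 0 → ∃ y ∈ F, φ (γ - y) = φ 0

/-- **Cohen's theorem** for positive definite functions. -/
theorem cohen {φ : G → ℝ} (h : PD φ) (hint : ∀ x, IsInt (φ x)) :
    ∃ (r : ℕ) (ψ : Fin r → G → ℝ), (∀ x, φ x = ∑ i, ψ i x) ∧ ∀ i, Simple (ψ i) := by
  have : Fact (PD φ) := ⟨h⟩
  obtain ⟨n, hn⟩ := exists_nat_ge (‖vec φ‖ ^ 2)
  obtain ⟨r, g, h1, h2⟩ := cohen_hilbert (rep φ) n (vec φ) hn fun γ => by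
    rw [inner_rep']
    exact hint γ
  refine ⟨r, fun i γ => ⟪(rep φ).U γ (g i), g i⟫, fun x => ?_, fun i => ?_⟩
  · rw [← inner_rep' φ x]
    exact h1 x
  · obtain ⟨hg0, h3, F, hF⟩ := h2 i
    refine ⟨pd_coeff _ _, h3, ?_, F, fun γ hγ => ?_⟩
    · simp only
      rw [(rep φ).zero, real_inner_self_eq_norm_sq]
      have := norm_pos_iff.2 hg0
      positivity
    · obtain ⟨y, hy, hy2⟩ := hF γ hγ
      refine ⟨y, hy, ?_⟩
      simp only
      rw [show γ - y = -y + γ by abel, (rep φ).add, hy2, (rep φ).neg, (rep φ).zero]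

/-- periods of a positive definite function -/
theorem periodic {φ : G → ℝ} (h : PD φ) {δ : G} (hδ : φ δ = φ 0) (x : G) : φ (x + δ) = φ x := by
  have : Fact (PD φ) := ⟨h⟩
  have h1 : (rep φ).U δ (vec φ) = vec φ := by
    have h2 : ‖(rep φ).U δ (vec φ) - vec φ‖ ^ 2 = 0 := by
      rw [norm_sub_sq_real, LinearIsometry.norm_map, inner_rep', hδ, norm_vec]
      ring
    have h3 := pow_eq_zero_iff (two_ne_zero) |>.1 h2
    rwa [norm_eq_zero, sub_eq_zero] at h3
  rw [← inner_rep' φ x, ← inner_rep' φ (x + δ), (rep φ).add, h1]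

/-- antiperiods of a positive definite function -/
theorem antiperiodic {φ : G → ℝ} (h : PD φ) {δ : G} (hδ : φ δ = -φ 0) (x : G) :
    φ (x + δ) = -φ x := by
  have : Fact (PD φ) := ⟨h⟩
  have h1 : (rep φ).U δ (vec φ) = -vec φ := by
    have h2 : ‖(rep φ).U δ (vec φ) + vec φ‖ ^ 2 = 0 := by
      rw [norm_add_sq_real, LinearIsometry.norm_map, inner_rep', hδ, norm_vec]
      ring
    have h3 := pow_eq_zero_iff (two_ne_zero) |>.1 h2
    rw [norm_eq_zero] at h3
    exact eq_neg_of_add_eq_zero_left h3
  rw [← inner_rep' φ x, ← inner_rep' φ (x + δ), (rep φ).add, h1, map_neg, inner_neg_left]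

end

end Pool.Agent.V8H32.Coh
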