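import Pool.Agent.V8H32.Coh.Two

/-!
# The dichotomy for `ℤ × T`
-/

set_option autoImplicit false

namespace Pool.Agent.V8H32.Coh

open Filter Topology Pool.Agent.H235R3.PT

section

variable {T : Type*} [AddCommGroup T]

theorem Simple.one_le {G : Type*} [AddCommGroup G] {φ : G → ℝ} (h : Simple φ) : 1 ≤ φ 0 := by
  have h1 := (h.int 0).one_le_abs h.ne
  rwa [abs_of_nonneg h.pd.zero_nonneg] at h1

theorem int_cases {x : ℝ} (h : IsInt x) (h1 : |x| ≤ 1) : x = 0 ∨ x = 1 ∨ x = -1 := by
  obtain ⟨n, rfl⟩ := h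
  have h2 : |n| ≤ 1 := by exact_mod_cast h1
  rw [abs_le] at h2
  have h3 : n = 0 ∨ n = 1 ∨ n = -1 := by omega
  rcases h3 with rfl | rfl | rfl
  · left; norm_num
  · right; left; norm_num
  · right; right; norm_num

theorem dich {φ : ℤ × T → ℝ} (htf : ∀ (n : ℕ) (x : T), n ≠ 0 → n • x = 0 → x = 0)
    (h : PD φ) (hint : ∀ x, IsInt (φ x)) (h0 : φ 0 = 2) (hsym : ∀ k t, φ (-k, t) = φ (k, t))
    (hT : ∀ t, t ≠ 0 → φ (0, t) = 0) (h2 : φ (2, 0) = -1) (h4 : φ (4, 0) = 0) :
    (∀ x, x ≠ 0 → x ≠ (2, 0) → x ≠ (-2, 0) → φ x = 0) ∨ ∃ M : ℕ, 1 ≤ M ∧ φ ((M : ℤ), 0) = 2 := by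
  by_cases hM : ∃ M : ℕ, 1 ≤ M ∧ φ ((M : ℤ), 0) = 2
  · exact Or.inr hM
  left
  have htf' : ∀ (n : ℕ) (x : ℤ × T), n ≠ 0 → n • x = 0 → x = 0 := by
    intro n x hn hx
    have h1 : n • x.1 = 0 := congrArg Prod.fst hx
    have h3 : n • x.2 = 0 := congrArg Prod.snd hx
    refine Prod.ext ?_ (htf n _ hn h3)
    rw [nsmul_eq_mul, mul_eq_zero] at h1
    rcases h1 with h1 | h1
    · exact absurd (by exact_mod_cast h1) hn
    · exact h1
  obtain ⟨r, ψ, hsum, hs⟩ := cohen h hint
  have hr : r ≤ 2 := by
    have h1 : (r : ℝ) ≤ ∑ i, ψ i 0 := by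
      calc (r : ℝ) = ∑ _i : Fin r, (1 : ℝ) := by simp
        _ ≤ ∑ i, ψ i 0 := Finset.sum_le_sum fun i _ => (hs i).one_le
    rw [← hsum, h0] at h1
    exact_mod_cast h1
  interval_cases r
  · have := hsum 0
    rw [h0] at this
    simp at this
  · -- one summand
    have hφ : φ = ψ 0 := by
      funext x
      rw [hsum x]
      simp
    have hper : ∀ x, φ x = 2 → x = 0 := by
      rintro ⟨k, t⟩ hx
      have h1 : φ (k, -t) = 2 := by
        rw [← hsym, ← hx, ← h.symm (k, t)]
        rfl
      have h3 : φ (2 * k, 0) = 2 := by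
        have h5 := periodic h (hx.trans h0.symm) (k, -t)
        rw [h1] at h5
        rw [← h5]
        congr 1
        ext
        · simp [two_mul]
        · simp
      have hk : k = 0 := by
        by_contra hk
        apply hM
        refine ⟨(2 * k).natAbs, by omega, ?_⟩
        rcases Int.natAbs_eq (2 * k) with h5 | h5
        · rw [← h5]
          exact h3
        · have h6 : (((2 * k).natAbs : ℕ) : ℤ) = -(2 * k) := by omega
          rw [h6, hsym]
          exact h3
      subst hk
      have ht : t = 0 := by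
        by_contra ht
        rw [hT t ht] at hx
        norm_num at hx
      rw [ht]
      rfl
    obtain ⟨F, hF⟩ := (hs 0).fin
    rw [← hφ] at hF
    have hfin : {x | φ x ≠ 0}.Finite := by
      refine F.finite_toSet.subset fun x hx => ?_
      obtain ⟨y, hy, hy2⟩ := hF x hx
      rw [h0] at hy2
      have h5 := hper _ hy2
      rw [sub_eq_zero] at h5
      rw [h5]
      exact hy
    have h5 := (top_two h hint h0 htf' hfin (δ := (2, 0)) (by
      intro h6
      have := congrArg Prod.fst h6
      simp at this) (by rw [h2]; norm_num)).2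
    intro x hx0 hx1 hx2
    refine h5 x hx0 hx1 fun h6 => hx2 ?_
    rw [h6]
    ext <;> simp
  · -- two summands
    exfalso
    have hsum' : ∀ x, φ x = ψ 0 x + ψ 1 x := by
      intro x
      rw [hsum x, Fin.sum_univ_two]
    have h1 : ψ 0 0 = 1 ∧ ψ 1 0 = 1 := by
      have h5 := hsum' 0
      rw [h0] at h5
      have h6 := (hs 0).one_le
      have h7 := (hs 1).one_le
      constructor <;> linarith
    have hb : ∀ (i : Fin 2) x, |ψ i x| ≤ 1 := by
      intro i x
      have := (hs i).pd.abs_le x
      fin_cases i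
      · simpa [h1.1] using this
      · simpa [h1.2] using this
    have key : ∀ i j : Fin 2, (∀ x, φ x = ψ i x + ψ j x) → ψ i 0 = 1 → ψ j 0 = 1 →
        ψ i (2, 0) = -1 → False := by
      intro i j hij hi hj hi2
      have h5 : ψ i (4, 0) = 1 := by
        have := antiperiodic (hs i).pd (δ := (2, 0)) (by rw [hi2, hi]) (2, 0)
        rw [hi2, neg_neg] at this
        rw [← this]
        congr 1
        ext <;> simp
      have h6 : ψ j (4, 0) = -1 := by
        have := hij (4, 0)
        rw [h4, h5] at this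
        linarith
      have h7 : ψ i (8, 0) = 1 := by
        have := periodic (hs i).pd (δ := (4, 0)) (by rw [h5, hi]) (4, 0)
        rw [h5] at this
        rw [← this]
        congr 1
        ext <;> simp
      have h8 : ψ j (8, 0) = 1 := by
        have := antiperiodic (hs j).pd (δ := (4, 0)) (by rw [h6, hj]) (4, 0)
        rw [h6, neg_neg] at this
        rw [← this]
        congr 1
        ext <;> simp
      apply hM
      refine ⟨8, by norm_num, ?_⟩
      have := hij (8, 0)
      rw [h7, h8] at this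
      rw [show (((8 : ℕ) : ℤ)) = 8 by norm_num, this]
      norm_num
    rcases int_cases ((hs 0).int (2, 0)) (hb 0 _) with h5 | h5 | h5
    · refine key 1 0 (fun x => by rw [hsum' x, add_comm]) h1.2 h1.1 ?_
      have := hsum' (2, 0)
      rw [h2, h5] at this
      linarith
    · have h6 := hsum' (2, 0)
      rw [h2, h5] at h6
      have h7 := hb 1 (2, 0)
      rw [show ψ 1 (2, 0) = -2 by linarith] at h7
      norm_num at h7
    · exact key 0 1 hsum' h1.1 h1.2 h5

end

end Pool.Agent.V8H32.Coh
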