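import Pool.Agent.H235R3.PT.Gns

/-!
# Positive definite functions with integral values: the Hilbert space argument

A unitary representation of an abelian group with a vector whose matrix coefficients are integers.  The
weak limits of the translates of the vector have integral inner products; a weak limit of minimal norm
splits off an orthogonal summand which is fixed by a subgroup and has only finitely many translates not
orthogonal to it.  This is the theorem of Cohen on idempotent measures for positive measures.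
-/

set_option autoImplicit false

namespace Pool.Agent.V8H32.Coh

open Filter Topology
open scoped RealInnerProductSpace

/-- a representation of an abelian group by isometries -/
structure Rep (G : Type*) [AddCommGroup G] (H : Type*) [NormedAddCommGroup H]
    [InnerProductSpace ℝ H] where
  /-- the isometries -/
  U : G → H →ₗᵢ[ℝ] H
  add : ∀ a b x, U (a + b) x = U a (U b x)
  zero : ∀ x, U 0 x = x

section

variable {G : Type*} [AddCommGroup G] {H : Type*} [NormedAddCommGroup H] [InnerProductSpace ℝ H]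

theorem Rep.neg (R : Rep G H) (a : G) (x : H) : R.U (-a) (R.U a x) = x := by
  rw [← R.add, neg_add_cancel, R.zero]

theorem Rep.neg' (R : Rep G H) (a : G) (x : H) : R.U a (R.U (-a) x) = x := by
  rw [← R.add, add_neg_cancel, R.zero]

theorem Rep.inner_left (R : Rep G H) (a : G) (x y : H) : ⟪R.U a x, y⟫ = ⟪x, R.U (-a) y⟫ := by
  have h := (R.U (-a)).inner_map_map (R.U a x) y
  rw [R.neg] at h
  exact h.symm

theorem Rep.inner_right (R : Rep G H) (a : G) (x y : H) : ⟪x, R.U a y⟫ = ⟪R.U (-a) x, y⟫ := by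
  have h := (R.U (-a)).inner_map_map x (R.U a y)
  rw [R.neg] at h
  exact h.symm

theorem Rep.inner_map (R : Rep G H) (a : G) (x y : H) : ⟪R.U a x, R.U a y⟫ = ⟪x, y⟫ :=
  (R.U a).inner_map_map x y

/-- an integer -/
def IsInt (x : ℝ) : Prop := ∃ n : ℤ, x = n

theorem IsInt.add {x y : ℝ} (hx : IsInt x) (hy : IsInt y) : IsInt (x + y) := by
  obtain ⟨a, rfl⟩ := hx
  obtain ⟨b, rfl⟩ := hy
  exact ⟨a + b, by push_cast; rfl⟩

theorem IsInt.sub {x y : ℝ} (hx : IsInt x) (hy : IsInt y) : IsInt (x - y) := by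
  obtain ⟨a, rfl⟩ := hx
  obtain ⟨b, rfl⟩ := hy
  exact ⟨a - b, by push_cast; rfl⟩

theorem IsInt.mul {x y : ℝ} (hx : IsInt x) (hy : IsInt y) : IsInt (x * y) := by
  obtain ⟨a, rfl⟩ := hx
  obtain ⟨b, rfl⟩ := hy
  exact ⟨a * b, by push_cast; rfl⟩

theorem IsInt.neg {x : ℝ} (hx : IsInt x) : IsInt (-x) := by
  obtain ⟨a, rfl⟩ := hx
  exact ⟨-a, by push_cast; rfl⟩

theorem IsInt.one_le_abs {x : ℝ} (hx : IsInt x) (h : x ≠ 0) : 1 ≤ |x| := by
  obtain ⟨a, rfl⟩ := hx
  have h1 : a ≠ 0 := by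
    rintro rfl
    exact h (by simp)
  have h2 : 1 ≤ |a| := Int.one_le_abs h1
  exact_mod_cast h2

theorem IsInt.eq_zero {x : ℝ} (hx : IsInt x) (h : |x| < 1) : x = 0 := by
  by_contra h1
  linarith [hx.one_le_abs h1]

theorem isClosed_isInt : IsClosed {x : ℝ | IsInt x} := by
  have h : {x : ℝ | IsInt x} = Set.range ((↑) : ℤ → ℝ) := by
    ext x
    constructor
    · rintro ⟨n, rfl⟩
      exact ⟨n, rfl⟩
    · rintro ⟨n, rfl⟩
      exact ⟨n, rfl⟩
  rw [h]
  exact Int.isClosedEmbedding_coe_real.isClosed_range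

theorem IsInt.of_tendsto {ι : Type*} {l : Filter ι} [l.NeBot] {f : ι → ℝ} {x : ℝ}
    (h : Tendsto f l (𝓝 x)) (hf : ∀ᶠ i in l, IsInt (f i)) : IsInt x :=
  isClosed_isInt.mem_of_tendsto h hf

/-- integers that tend to an integer are eventually equal to it -/
theorem eventually_eq_of_tendsto {ι : Type*} {l : Filter ι} [l.NeBot] {f : ι → ℝ} {x : ℝ}
    (h : Tendsto f l (𝓝 x)) (hf : ∀ᶠ i in l, IsInt (f i)) : ∀ᶠ i in l, f i = x := by
  have hx := IsInt.of_tendsto h hf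
  have h1 : ∀ᶠ i in l, dist (f i) x < 1 := h.eventually (Metric.ball_mem_nhds x one_pos)
  filter_upwards [h1, hf] with i h2 h3
  rw [Real.dist_eq] at h2
  have := (h3.sub hx).eq_zero h2
  linarith

/-- `h` is the weak limit of the `f i` -/
def WLim {ι : Type*} (l : Filter ι) (f : ι → H) (h : H) : Prop :=
  ∀ x : H, Tendsto (fun i => ⟪f i, x⟫) l (𝓝 ⟪h, x⟫)

variable [CompleteSpace H]

theorem exists_wlim {ι : Type*} (l : Ultrafilter ι) (f : ι → H) (B : ℝ) (hB : ∀ i, ‖f i‖ ≤ B) :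
    ∃ h, WLim (l : Filter ι) f h := by
  have hc := WeakDual.isCompact_closedBall (0 : StrongDual ℝ H) B
  let F : ι → WeakDual ℝ H := fun i => StrongDual.toWeakDual (InnerProductSpace.toDual ℝ H (f i))
  have hF : ∀ i, F i ∈ WeakDual.toStrongDual ⁻¹' Metric.closedBall (0 : StrongDual ℝ H) B := by
    intro i
    rw [Set.mem_preimage, mem_closedBall_zero_iff]
    change ‖InnerProductSpace.toDual ℝ H (f i)‖ ≤ B
    rw [LinearIsometryEquiv.norm_map]
    exact hB i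
  have h1 : WeakDual.toStrongDual ⁻¹' Metric.closedBall (0 : StrongDual ℝ H) B ∈ l.map F :=
    Ultrafilter.mem_map.2 (Filter.univ_mem' hF)
  obtain ⟨φ, _, h2⟩ := hc.ultrafilter_le_nhds' (l.map F) h1
  refine ⟨(InnerProductSpace.toDual ℝ H).symm (WeakDual.toStrongDual φ), fun x => ?_⟩
  have h3 : Tendsto F l (𝓝 φ) := h2
  have h4 : Tendsto (fun i => F i x) l (𝓝 (φ x)) :=
    ((WeakDual.eval_continuous x).tendsto φ).comp h3
  rw [InnerProductSpace.toDual_symm_apply]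
  exact h4

omit [CompleteSpace H] in
theorem WLim.right {ι : Type*} {l : Filter ι} {f : ι → H} {h : H} (hf : WLim l f h) (x : H) :
    Tendsto (fun i => ⟪x, f i⟫) l (𝓝 ⟪x, h⟫) := by
  have := hf x
  simpa only [real_inner_comm] using this

omit [CompleteSpace H] in
theorem WLim.norm_sq_le {ι : Type*} {l : Filter ι} [l.NeBot] {f : ι → H} {h : H}
    (hf : WLim l f h) {B : ℝ} (hB : 0 ≤ B) (hfB : ∀ i, ‖f i‖ ≤ B) : ‖h‖ ^ 2 ≤ B ^ 2 := by
  have h1 : ‖h‖ ^ 2 ≤ B * ‖h‖ := by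
    rw [← real_inner_self_eq_norm_sq]
    refine le_of_tendsto (hf h) (Filter.Eventually.of_forall fun i => ?_)
    exact (real_inner_le_norm _ _).trans
      (mul_le_mul_of_nonneg_right (hfB i) (norm_nonneg _))
  have h2 : ‖h‖ ≤ B := by
    by_contra h3
    push Not at h3
    nlinarith [norm_nonneg h]
  exact pow_le_pow_left₀ (norm_nonneg _) h2 2

variable (R : Rep G H) (v : H)

/-- weak limits of translates of `v` -/
def W (h : H) : Prop := ∃ u : Ultrafilter G, WLim (u : Filter G) (fun γ => R.U γ v) h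

variable {R v}

omit [CompleteSpace H] in
theorem W.self : W R v v := by
  refine ⟨pure 0, fun x => ?_⟩
  rw [Ultrafilter.coe_pure]
  have : (fun γ => ⟪R.U γ v, x⟫) 0 = ⟪v, x⟫ := by
    simp only
    rw [R.zero]
  rw [← this]
  exact tendsto_pure_nhds _ _

omit [CompleteSpace H] in
theorem W.int_left (hv : ∀ γ, IsInt ⟪R.U γ v, v⟫) {h : H} (hh : W R v h) (δ : G) :
    IsInt ⟪h, R.U δ v⟫ := by
  obtain ⟨u, hu⟩ := hh
  refine IsInt.of_tendsto (hu (R.U δ v)) (Filter.Eventually.of_forall fun γ => ?_)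
  rw [R.inner_right, ← R.add]
  exact hv _

omit [CompleteSpace H] in
theorem W.int (hv : ∀ γ, IsInt ⟪R.U γ v, v⟫) {h h' : H} (hh : W R v h) (hh' : W R v h') :
    IsInt ⟪h, h'⟫ := by
  obtain ⟨u, hu⟩ := hh'
  exact IsInt.of_tendsto (hu.right h) (Filter.Eventually.of_forall fun γ => hh.int_left hv γ)

omit [CompleteSpace H] in
theorem W.norm_sq_le {h : H} (hh : W R v h) : ‖h‖ ^ 2 ≤ ‖v‖ ^ 2 := by
  obtain ⟨u, hu⟩ := hh
  exact hu.norm_sq_le (norm_nonneg v) fun γ => by rw [LinearIsometry.norm_map]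

omit [CompleteSpace H] in
/-- weak limits of translates of weak limits of translates -/
theorem W.wlim {h g : H} (hh : W R v h) {w : Ultrafilter G}
    (hg : WLim (w : Filter G) (fun γ => R.U γ h) g) : W R v g := by
  obtain ⟨u, hu⟩ := hh
  refine ⟨w.bind fun γ => u.map fun δ => γ + δ, fun x => ?_⟩
  rw [tendsto_nhds]
  intro s hs hgs
  have h1 : ∀ᶠ γ in (w : Filter G), ⟪R.U γ h, x⟫ ∈ s := (hg x).eventually (hs.mem_nhds hgs)
  change ∀ᶠ γ in (w : Filter G), ∀ᶠ δ in (u : Filter G), ⟪R.U (γ + δ) v, x⟫ ∈ s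
  filter_upwards [h1] with γ h2
  rw [R.inner_left] at h2
  have h3 := (hu (R.U (-γ) x)).eventually (hs.mem_nhds h2)
  filter_upwards [h3] with δ h4
  rw [R.add, R.inner_left]
  exact h4

omit [CompleteSpace H] in
theorem W.map {h : H} (hh : W R v h) (γ : G) : W R v (R.U γ h) := by
  refine hh.wlim (w := pure γ) (fun x => ?_)
  rw [Ultrafilter.coe_pure]
  exact tendsto_pure_nhds (fun γ => ⟪R.U γ h, x⟫) γ

/-- **Splitting off a summand.** -/
theorem split (hv : ∀ γ, IsInt ⟪R.U γ v, v⟫) (hv0 : v ≠ 0) :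
    ∃ g : H, g ≠ 0 ∧ (∀ γ, ⟪R.U γ g, v⟫ = ⟪R.U γ g, g⟫) ∧ (∀ γ, IsInt ⟪R.U γ g, g⟫) ∧
      (∀ w : Ultrafilter G, (∀ᶠ γ in (w : Filter G), ⟪R.U γ g, g⟫ ≠ 0) →
        ∃ g', ∀ᶠ γ in (w : Filter G), R.U γ g = g') := by
  classical
  have hne : ∃ n : ℕ, ∃ h, W R v h ∧ h ≠ 0 ∧ ‖h‖ ^ 2 = n := by
    obtain ⟨a, ha⟩ := W.int hv W.self W.self
    rw [real_inner_self_eq_norm_sq] at ha
    have ha0 : 0 ≤ a := by
      have : (0 : ℝ) ≤ a := by rw [← ha]; positivity
      exact_mod_cast this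
    exact ⟨a.toNat, v, W.self, hv0, by rw [ha]; exact_mod_cast (Int.toNat_of_nonneg ha0).symm⟩
  set m := Nat.find hne with hm
  obtain ⟨h, hW, hh0, hhm⟩ := Nat.find_spec hne
  rw [← hm] at hhm
  have hmin : ∀ g, W R v g → g ≠ 0 → (m : ℝ) ≤ ‖g‖ ^ 2 := by
    intro g hg hg0
    obtain ⟨a, ha⟩ := W.int hv hg hg
    rw [real_inner_self_eq_norm_sq] at ha
    have ha0 : 0 ≤ a := by
      have : (0 : ℝ) ≤ a := by rw [← ha]; positivity
      exact_mod_cast this
    have h1 : ‖g‖ ^ 2 = (a.toNat : ℕ) := by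
      rw [ha]
      exact_mod_cast (Int.toNat_of_nonneg ha0).symm
    have h2 : m ≤ a.toNat := Nat.find_min' hne ⟨g, hg, hg0, h1⟩
    rw [h1]
    exact_mod_cast h2
  -- Claim 1
  have hcl : ∀ h' : H, W R v h' → ‖h'‖ ^ 2 = m → ∀ (w : Ultrafilter G) (g : H),
      WLim (w : Filter G) (fun γ => R.U γ h') g → g ≠ 0 →
        (∀ᶠ γ in (w : Filter G), R.U γ h' = g) ∧ ‖g‖ ^ 2 = m := by
    intro h' hW' hm' w g hg hg0
    have hWg : W R v g := hW'.wlim hg
    have h1 : ‖g‖ ^ 2 ≤ ‖h'‖ ^ 2 := hg.norm_sq_le (norm_nonneg h') fun γ => by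
      rw [LinearIsometry.norm_map]
    have h2 : ‖g‖ ^ 2 = m := le_antisymm (h1.trans hm'.le) (hmin g hWg hg0)
    refine ⟨?_, h2⟩
    have h3 := hg g
    have h4 := eventually_eq_of_tendsto h3 (Filter.Eventually.of_forall fun γ =>
      W.int hv (hW'.map γ) hWg)
    filter_upwards [h4] with γ h5
    rw [real_inner_self_eq_norm_sq] at h5
    have h6 : ‖R.U γ h' - g‖ ^ 2 = 0 := by
      rw [norm_sub_sq_real, LinearIsometry.norm_map, h5, hm', h2]
      ring
    have h7 : ‖R.U γ h' - g‖ = 0 := by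
      exact pow_eq_zero_iff (two_ne_zero) |>.1 h6
    rwa [norm_eq_zero, sub_eq_zero] at h7
  obtain ⟨u, hu⟩ := hW
  -- Claim 2
  obtain ⟨g₀, hg₀⟩ := exists_wlim (u.map fun γ => -γ) (fun γ => R.U γ h) ‖h‖ fun γ => by
    rw [LinearIsometry.norm_map]
  have hg₀' : ∀ x, Tendsto (fun γ => ⟪R.U (-γ) h, x⟫) (u : Filter G) (𝓝 ⟪g₀, x⟫) :=
    fun x => hg₀ x
  have h1 : ⟪g₀, v⟫ = m := by
    refine tendsto_nhds_unique (hg₀' v) ?_
    have h2 := hu.right h
    rw [real_inner_self_eq_norm_sq, hhm] at h2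
    refine h2.congr fun γ => ?_
    rw [R.inner_right]
  have hm0 : (m : ℝ) ≠ 0 := by
    rw [← hhm]
    have := norm_pos_iff.2 hh0
    positivity
  have hg₀0 : g₀ ≠ 0 := by
    rintro rfl
    rw [inner_zero_left] at h1
    exact hm0 h1.symm
  obtain ⟨h3, h4⟩ := hcl h ⟨u, hu⟩ hhm _ g₀ hg₀ hg₀0
  have h5 : ∀ᶠ γ in (u : Filter G), R.U (-γ) h = g₀ := h3
  have hWg₀ : W R v g₀ := W.wlim ⟨u, hu⟩ hg₀
  have h6 : ∀ᶠ γ in (u : Filter G), h = R.U γ g₀ := by
    filter_upwards [h5] with γ h7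
    rw [← h7, R.neg']
  refine ⟨g₀, hg₀0, fun γ => ?_, fun γ => W.int hv (hWg₀.map γ) hWg₀, fun w hw => ?_⟩
  · -- Claim 3
    have h7 : ∀ᶠ α in (u : Filter G), ⟪R.U γ g₀, v⟫ = ⟪R.U γ h, R.U α v⟫ := by
      filter_upwards [h6] with α h8
      rw [h8, ← R.add, add_comm γ α, R.add, R.inner_map]
    have h8 : Tendsto (fun α => ⟪R.U γ h, R.U α v⟫) (u : Filter G) (𝓝 ⟪R.U γ h, h⟫) :=
      hu.right (R.U γ h)
    have h9 : ⟪R.U γ g₀, v⟫ = ⟪R.U γ h, h⟫ := by
      refine tendsto_nhds_unique (tendsto_const_nhds.congr' h7) h8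
    obtain ⟨α, hα⟩ := h6.exists
    rw [h9, hα, ← R.add, add_comm γ α, R.add, R.inner_map]
  · obtain ⟨g', hg'⟩ := exists_wlim w (fun γ => R.U γ g₀) ‖g₀‖ fun γ => by
      rw [LinearIsometry.norm_map]
    have h7 : g' ≠ 0 := by
      rintro rfl
      have h8 := hg' g₀
      rw [inner_zero_left] at h8
      have h9 := eventually_eq_of_tendsto h8 (Filter.Eventually.of_forall fun γ =>
        W.int hv (hWg₀.map γ) hWg₀)
      obtain ⟨γ, h10, h11⟩ := (hw.and h9).exists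
      exact h10 h11
    exact ⟨g', (hcl g₀ hWg₀ h4 w g' hg' h7).1⟩

end

end Pool.Agent.V8H32.Coh
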