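import Pool.Agent.W540.BE.Size

/-!
# Mean values over the primes, weighted with `N ^ (-1 - ε)`
-/

set_option autoImplicit false

namespace Pool.Agent.V8H32.Coh

open Complex Filter Topology ComplexConjugate Pool.Agent.H341R2 Pool.Agent.W540.BE Polynomial

section

variable {P : Type*} {N : P → ℕ}

/-- `x` is the mean value of the bounded function `f` -/
structure Lim (N : P → ℕ) (f : P → ℝ) (x : ℝ) : Prop where
  bdd : ∃ B : ℝ, ∀ p, |f p| ≤ B
  lim : Tendsto (fun ε : ℝ => EP N ε f / lam ε) (𝓝[>] 0) (𝓝 x)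

theorem Lim.unique {f : P → ℝ} {x y : ℝ} (h : Lim N f x) (h' : Lim N f y) : x = y :=
  tendsto_nhds_unique h.lim h'.lim

theorem Lim.add (hN : NormSys N) {f g : P → ℝ} {x y : ℝ} (hf : Lim N f x) (hg : Lim N g y) :
    Lim N (fun p => f p + g p) (x + y) := by
  obtain ⟨B, hB⟩ := hf.bdd
  obtain ⟨B', hB'⟩ := hg.bdd
  refine ⟨⟨B + B', fun p => (abs_add_le _ _).trans (add_le_add (hB p) (hB' p))⟩, ?_⟩
  refine (hf.lim.add hg.lim).congr' ?_
  filter_upwards [self_mem_nhdsWithin] with ε hε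
  rw [EP_add hN hε hB hB', add_div]

theorem Lim.const_mul {f : P → ℝ} {x : ℝ} (hf : Lim N f x) (c : ℝ) :
    Lim N (fun p => c * f p) (c * x) := by
  obtain ⟨B, hB⟩ := hf.bdd
  refine ⟨⟨|c| * B, fun p => ?_⟩, ?_⟩
  · rw [abs_mul]
    exact mul_le_mul_of_nonneg_left (hB p) (abs_nonneg _)
  · refine (hf.lim.const_mul c).congr fun ε => ?_
    rw [EP_const_mul, mul_div_assoc]

theorem Lim.congr {f g : P → ℝ} {x : ℝ} (hf : Lim N f x) (h : ∀ p, f p = g p) : Lim N g x := by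
  have : f = g := funext h
  rwa [← this]

theorem Lim.sub (hN : NormSys N) {f g : P → ℝ} {x y : ℝ} (hf : Lim N f x) (hg : Lim N g y) :
    Lim N (fun p => f p - g p) (x - y) := by
  have h := hf.add hN (hg.const_mul (-1))
  rw [show x + -1 * y = x - y by ring] at h
  exact h.congr fun p => by ring

theorem Lim.zero : Lim N (fun _ => 0) 0 := by
  refine ⟨⟨0, fun _ => by simp⟩, ?_⟩
  refine tendsto_const_nhds.congr fun ε => ?_
  simp [EP]

theorem Lim.sum (hN : NormSys N) {ι : Type*} (s : Finset ι) {f : ι → P → ℝ} {x : ι → ℝ}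
    (h : ∀ i ∈ s, Lim N (f i) (x i)) : Lim N (fun p => ∑ i ∈ s, f i p) (∑ i ∈ s, x i) := by
  classical
  induction s using Finset.induction_on with
  | empty => simpa using Lim.zero
  | insert i s hi ih =>
    have h1 := (h i (Finset.mem_insert_self _ _)).add hN
      (ih fun j hj => h j (Finset.mem_insert_of_mem hj))
    rw [Finset.sum_insert hi]
    exact h1.congr fun p => by rw [Finset.sum_insert hi]

theorem Lim.nonneg {f : P → ℝ} {x : ℝ} (hf : Lim N f x) (h : ∀ p, 0 ≤ f p) : 0 ≤ x := by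
  refine ge_of_tendsto hf.lim ?_
  filter_upwards [lam_tendsto.eventually_gt_atTop 0] with ε hε
  exact div_nonneg (EP_nonneg h) hε.le

theorem Lim.fin (hN : NormSys N) {f : P → ℝ} (S : Finset P) (h : ∀ p, p ∉ S → f p = 0) :
    Lim N f 0 := by
  classical
  have hb : ∀ p, |f p| ≤ ∑ q ∈ S, |f q| := by
    intro p
    by_cases hp : p ∈ S
    · exact Finset.single_le_sum (f := fun q => |f q|) (fun q _ => abs_nonneg _) hp
    · rw [h p hp, abs_zero]
      exact Finset.sum_nonneg fun q _ => abs_nonneg _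
  refine ⟨⟨_, hb⟩, ?_⟩
  have h1 : ∀ ε : ℝ, 0 < ε → |EP N ε f| ≤ ∑ q ∈ S, |f q| := by
    intro ε hε
    rw [EP, tsum_eq_sum (s := S) fun p hp => by rw [h p hp, zero_mul]]
    refine (Finset.abs_sum_le_sum_abs _ _).trans (Finset.sum_le_sum fun p _ => ?_)
    have hp1 : (1 : ℝ) ≤ N p := by
      have := hN.two_le p
      exact_mod_cast (by omega : 1 ≤ N p)
    rw [abs_mul, abs_of_nonneg (wP_nonneg ε p)]
    exact mul_le_of_le_one_right (abs_nonneg _)
      (Real.rpow_le_one_of_one_le_of_nonpos hp1 (by linarith))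
  have h2 : Tendsto (fun ε : ℝ => (∑ q ∈ S, |f q|) / lam ε) (𝓝[>] 0) (𝓝 0) :=
    tendsto_const_nhds.div_atTop lam_tendsto
  refine squeeze_zero_norm' ?_ h2
  filter_upwards [self_mem_nhdsWithin, lam_tendsto.eventually_gt_atTop 0] with ε hε hl
  rw [Real.norm_eq_abs, abs_div, abs_of_pos hl]
  exact div_le_div_of_nonneg_right (h1 ε hε) hl.le

theorem Lim.of_fin (hN : NormSys N) {f g : P → ℝ} {x : ℝ} (hf : Lim N f x) (S : Finset P)
    (h : ∀ p, p ∉ S → f p = g p) : Lim N g x := by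
  have h1 := hf.sub hN (Lim.fin hN (f := fun p => f p - g p) S fun p hp => by rw [h p hp, sub_self])
  rw [sub_zero] at h1
  exact h1.congr fun p => by ring

/-- squeezing -/
theorem Lim.squeeze (hN : NormSys N) {f g : P → ℝ} (hf : Lim N f 0) (h0 : ∀ p, 0 ≤ g p)
    (h : ∀ p, g p ≤ f p) : Lim N g 0 := by
  obtain ⟨B, hB⟩ := hf.bdd
  have hg : ∀ p, |g p| ≤ B := fun p => by
    rw [abs_of_nonneg (h0 p)]
    exact (h p).trans ((le_abs_self _).trans (hB p))
  refine ⟨⟨B, hg⟩, ?_⟩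
  refine squeeze_zero' ?_ ?_ hf.lim
  · filter_upwards [lam_tendsto.eventually_gt_atTop 0] with ε hε
    exact div_nonneg (EP_nonneg h0) hε.le
  · filter_upwards [self_mem_nhdsWithin, lam_tendsto.eventually_gt_atTop 0] with ε hε hl
    refine div_le_div_of_nonneg_right ?_ hl.le
    rw [EP, EP]
    exact Summable.tsum_le_tsum (fun p => mul_le_mul_of_nonneg_right (h p) (wP_nonneg ε p))
      (summable_EP hN hε hg) (summable_EP hN hε hB)

/-- Approximation: a functional that is bounded by the supremum norm. -/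
theorem Lim.approx (hN : NormSys N) (h1 : Lim N (fun _ : P => 1) 1) {f : P → ℝ} {x : ℝ}
    (h : ∀ η : ℝ, 0 < η → ∃ (g : P → ℝ) (y : ℝ), Lim N g y ∧ (∀ p, |f p - g p| ≤ η) ∧
      |x - y| ≤ η) : Lim N f x := by
  obtain ⟨g₀, y₀, hg₀, hfg₀, _⟩ := h 1 one_pos
  obtain ⟨B₀, hB₀⟩ := hg₀.bdd
  have hfb : ∀ p, |f p| ≤ 1 + B₀ := fun p => by
    have h3 : f p = (f p - g₀ p) + g₀ p := by ring
    rw [h3]
    exact (abs_add_le _ _).trans (add_le_add (hfg₀ p) (hB₀ p))
  refine ⟨⟨_, hfb⟩, ?_⟩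
  rw [Metric.tendsto_nhds]
  intro δ hδ
  obtain ⟨g, y, hg, hfg, hxy⟩ := h (δ / 4) (by positivity)
  obtain ⟨B, hB⟩ := hg.bdd
  have h2 : ∀ᶠ ε : ℝ in 𝓝[>] 0, EP N ε (fun _ => 1) / lam ε < 2 :=
    h1.lim.eventually (gt_mem_nhds (by norm_num))
  filter_upwards [(Metric.tendsto_nhds.1 hg.lim) (δ / 4) (by positivity), h2,
    self_mem_nhdsWithin, lam_tendsto.eventually_gt_atTop 0] with ε h3 h4 hε hl
  rw [Real.dist_eq] at h3 ⊢
  have h5 : |EP N ε f / lam ε - EP N ε g / lam ε| ≤ δ / 4 * 2 := by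
    have h6 : EP N ε f - EP N ε g = EP N ε fun p => f p - g p := by
      have := EP_add hN hε (φ := fun p => f p - g p) (ψ := g) hfg hB
      rw [← sub_eq_iff_eq_add] at this
      rw [← this]
      congr 2
      funext p
      ring
    rw [← sub_div, h6, abs_div, abs_of_pos hl, div_le_iff₀ hl]
    have h7 : |EP N ε fun p => f p - g p| ≤ δ / 4 * EP N ε fun _ => 1 := by
      rw [abs_le]
      constructor
      · have h8 := EP_le hN hε (φ := fun p => -(f p - g p)) (B := δ / 4)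
          (fun p => by rw [abs_neg]; exact hfg p) (b := δ / 4)
          (fun p => (neg_le_abs _).trans (hfg p))
        have h9 : EP N ε (fun p => -(f p - g p)) = -EP N ε fun p => f p - g p := by
          rw [← neg_one_mul, ← EP_const_mul]
          congr 1
          funext p
          ring
        rw [h9] at h8
        linarith
      · exact EP_le hN hε (φ := fun p => f p - g p) (B := δ / 4) hfg (b := δ / 4)
          (fun p => (le_abs_self _).trans (hfg p))
    refine h7.trans ?_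
    have h8 : (EP N ε fun _ => 1) ≤ 2 * lam ε := by
      rw [div_lt_iff₀ hl] at h4
      exact h4.le
    nlinarith
  have e : EP N ε f / lam ε - x = (EP N ε f / lam ε - EP N ε g / lam ε) +
      (EP N ε g / lam ε - y) - (x - y) := by ring
  rw [e]
  calc |(EP N ε f / lam ε - EP N ε g / lam ε) + (EP N ε g / lam ε - y) - (x - y)|
      ≤ |EP N ε f / lam ε - EP N ε g / lam ε| + |EP N ε g / lam ε - y| + |x - y| := by
        refine (abs_sub _ _).trans (add_le_add (abs_add_le _ _) le_rfl)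
    _ < δ := by linarith

end

/-! ### The logarithm of an Euler product -/

section

/-- the logarithm of a local factor -/
theorem loc {ι : Type*} [Fintype ι] (w : ℝ) (q : ℕ) (hq : 2 ≤ q) (y : ι → ℂ)
    (hy : ∀ j, ‖y j‖ = (q : ℝ) ^ w) (τ ε : ℝ) (hε : 0 < ε) :
    ∃ G : ℂ, cexp G = (∏ j, (1 - y j * (q : ℂ) ^ (-(w + 1 + τ * I + ε : ℂ))))⁻¹ ∧
      ‖G - ((∑ j, y j) * (q : ℂ) ^ (-(w : ℂ)) * (q : ℂ) ^ (-(τ * I))) *
        ((q : ℝ) ^ (-(1 + ε)) : ℝ)‖ ≤ (Fintype.card ι : ℝ) * (q : ℝ) ^ (-2 : ℝ) := by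
  have hq0 : (0 : ℝ) < q := by
    have : 0 < q := by omega
    exact_mod_cast this
  have hq1 : (1 : ℝ) ≤ q := by
    have : 1 ≤ q := by omega
    exact_mod_cast this
  have hq2 : (2 : ℝ) ≤ q := by exact_mod_cast hq
  have hqc : (q : ℂ) ≠ 0 := by
    have : q ≠ 0 := by omega
    exact_mod_cast this
  set z : ℂ := (q : ℂ) ^ (-(w + 1 + τ * I + ε : ℂ)) with hz
  have hzn : ‖z‖ = (q : ℝ) ^ (-(w + 1 + ε)) := by
    rw [hz, Complex.norm_natCast_cpow_of_pos (by omega)]
    congr 1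
    simp
  have hx : ∀ j, ‖y j * z‖ = (q : ℝ) ^ (-(1 + ε)) := by
    intro j
    rw [norm_mul, hy, hzn, ← Real.rpow_add hq0]
    congr 1
    ring
  have hsmall : (q : ℝ) ^ (-(1 + ε)) ≤ 1 / 2 := by
    calc (q : ℝ) ^ (-(1 + ε)) ≤ (q : ℝ) ^ (-1 : ℝ) :=
          Real.rpow_le_rpow_of_exponent_le hq1 (by linarith)
      _ ≤ 1 / 2 := by
          rw [Real.rpow_neg_one, one_div]
          exact inv_anti₀ (by norm_num) hq2
  have hne : ∀ j, 1 - y j * z ≠ 0 := by
    intro j h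
    have h1 : y j * z = 1 := (sub_eq_zero.1 h).symm
    have h2 := hx j
    rw [h1, norm_one] at h2
    linarith
  refine ⟨∑ j, -Complex.log (1 - y j * z), ?_, ?_⟩
  · rw [Complex.exp_sum, ← Finset.prod_inv_distrib]
    refine Finset.prod_congr rfl fun j _ => ?_
    rw [Complex.exp_neg, Complex.exp_log (hne j)]
  · have h1 : ((∑ j, y j) * (q : ℂ) ^ (-(w : ℂ)) * (q : ℂ) ^ (-(τ * I))) *
        ((q : ℝ) ^ (-(1 + ε)) : ℝ) = ∑ j, y j * z := by
      rw [← Finset.sum_mul, mul_assoc, mul_assoc]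
      congr 1
      rw [hz, Complex.ofReal_cpow hq0.le]
      push_cast
      rw [← Complex.cpow_add _ _ hqc, ← Complex.cpow_add _ _ hqc]
      congr 1
      ring
    rw [h1, ← Finset.sum_sub_distrib]
    refine (norm_sum_le _ _).trans ?_
    rw [← nsmul_eq_mul, ← Finset.card_univ]
    refine Finset.sum_le_card_nsmul _ _ _ fun j _ => ?_
    refine (norm_neg_log_sub_le (by rw [hx]; exact hsmall)).trans ?_
    rw [hx, ← Real.rpow_natCast, ← Real.rpow_mul hq0.le]
    exact Real.rpow_le_rpow_of_exponent_le hq1 (by push_cast; linarith)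

end

section

variable {P : Type*} {N : P → ℕ}

/-- **The size of an Euler product near the edge.**  Outside the finite set `S` the Euler factors are
`∏_j (1 - y_j N^{-s})⁻¹`, `|y_j| = N^w`; at the primes of `S` they are `1 / B(N^{-s})`. -/
theorem size (hN : NormSys N) (h1 : Lim N (fun _ : P => 1) 1) {ι : Type*} [Fintype ι] (w τ : ℝ)
    (S : Finset P) (y : P → ι → ℂ) (hy : ∀ p, p ∉ S → ∀ j, ‖y p j‖ = (N p : ℝ) ^ w)
    (B : P → ℂ[X])
    (hB : ∀ p ∈ S, (B p).eval (((N p : ℕ) : ℂ) ^ (-(w + 1 + τ * I : ℂ))) ≠ 0)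
    (hBy : ∀ p, p ∉ S → ∀ z : ℂ, (B p).eval z = ∏ j, (1 - y p j * z)) (L : ℂ → ℂ)
    (hL : ∀ s : ℂ, w + 1 < s.re → L s = ∏' p : P, ((B p).eval (((N p : ℕ) : ℂ) ^ (-s)))⁻¹) :
    (∀ᶠ ε : ℝ in 𝓝[>] 0, L (w + 1 + τ * I + ε) ≠ 0) ∧
    ∀ f : P → ℝ, (∀ p, p ∉ S → f p = ((∑ j, y p j) * ((N p : ℕ) : ℂ) ^ (-(w : ℂ)) *
      ((N p : ℕ) : ℂ) ^ (-(τ * I))).re) → ∀ x : ℝ,
      (Lim N f x ↔ Tendsto (fun ε : ℝ => Real.log ‖L (w + 1 + τ * I + ε)‖ / Real.log (1 / ε))
        (𝓝[>] 0) (𝓝 x)) := by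
  classical
  have hGex : ∀ (ε : ℝ) (p : P), ∃ G : ℂ, 0 < ε → p ∉ S →
      cexp G = ((B p).eval (((N p : ℕ) : ℂ) ^ (-(w + 1 + τ * I + ε : ℂ))))⁻¹ ∧
      ‖G - ((∑ j, y p j) * ((N p : ℕ) : ℂ) ^ (-(w : ℂ)) * ((N p : ℕ) : ℂ) ^ (-(τ * I))) *
        ((N p : ℝ) ^ (-(1 + ε)) : ℝ)‖ ≤ (Fintype.card ι : ℝ) * (N p : ℝ) ^ (-2 : ℝ) := by
    intro ε p
    by_cases h : 0 < ε ∧ p ∉ S
    · obtain ⟨G, hG1, hG2⟩ := loc w (N p) (hN.two_le p) (y p) (hy p h.2) τ ε h.1
      exact ⟨G, fun _ _ => ⟨by rw [hG1, hBy p h.2], hG2⟩⟩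
    · exact ⟨0, fun h1 h2 => absurd ⟨h1, h2⟩ h⟩
  choose G hG using hGex
  set a : P → ℂ := fun p => if p ∉ S then (∑ j, y p j) * ((N p : ℕ) : ℂ) ^ (-(w : ℂ)) *
    ((N p : ℕ) : ℂ) ^ (-(τ * I)) else 0 with ha
  have hNpos : ∀ p, 0 < N p := fun p => by have := hN.two_le p; omega
  have hab : ∀ p, ‖a p‖ ≤ Fintype.card ι := by
    intro p
    rw [ha]
    simp only
    by_cases hp : p ∉ S
    · rw [if_pos hp]
      have h2 : (0 : ℝ) < N p := by exact_mod_cast hNpos p
      rw [norm_mul, norm_mul, Complex.norm_natCast_cpow_of_pos (hNpos p),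
        Complex.norm_natCast_cpow_of_pos (hNpos p)]
      have h3 : (-(τ * I) : ℂ).re = 0 := by simp
      have h4 : (-(w : ℂ)).re = -w := by simp
      rw [h3, h4, Real.rpow_zero, mul_one]
      calc ‖∑ j, y p j‖ * (N p : ℝ) ^ (-w)
          ≤ (Fintype.card ι * (N p : ℝ) ^ w) * (N p : ℝ) ^ (-w) := by
            refine mul_le_mul_of_nonneg_right ?_ (by positivity)
            refine (norm_sum_le _ _).trans ?_
            rw [Finset.sum_congr rfl fun j _ => hy p hp j, Finset.sum_const, Finset.card_univ,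
              nsmul_eq_mul]
        _ = Fintype.card ι := by
            rw [mul_assoc, ← Real.rpow_add h2, add_neg_cancel, Real.rpow_zero, mul_one]
    · rw [if_neg hp, norm_zero]
      positivity
  have ha0 : ∀ p, ¬ (p ∉ S) → a p = 0 := by
    intro p hp
    rw [ha]
    simp only
    rw [if_neg hp]
  have hfin : {p | ¬ (p ∉ S)}.Finite := by
    refine S.finite_toSet.subset fun p hp => ?_
    simpa using hp
  obtain ⟨C', hC'⟩ := sizeP hN (Good := fun p => p ∉ S) hfin B (w + 1 + τ * I)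
    (fun p hp => hB p (not_not.1 hp)) a hab ha0 G (C := (Fintype.card ι : ℝ))
    (by
      intro ε hε p hp
      have h2 : a p = (∑ j, y p j) * ((N p : ℕ) : ℂ) ^ (-(w : ℂ)) *
          ((N p : ℕ) : ℂ) ^ (-(τ * I)) := by
        rw [ha]
        simp only
        rw [if_pos hp]
      rw [h2]
      exact (hG ε p hε hp).2)
    (L := fun ε => L (w + 1 + τ * I + ε))
    (by
      intro ε hε
      rw [hL _ (by simp [hε])]
      refine tprod_congr fun p => ?_
      by_cases hp : p ∉ S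
      · rw [if_pos hp, (hG ε p hε hp).1]
      · rw [if_neg hp])
  refine ⟨hC'.mono fun ε h => h.1, fun f hf x => ?_⟩
  have hlamy : ∀ᶠ ε : ℝ in 𝓝[>] 0, |EP N ε fun p => (a p).re| ≤
      (2 * Fintype.card ι : ℝ) * lam ε := by
    have h2 : ∀ᶠ ε : ℝ in 𝓝[>] 0, EP N ε (fun _ => 1) / lam ε < 2 :=
      h1.lim.eventually (gt_mem_nhds (by norm_num))
    filter_upwards [h2, self_mem_nhdsWithin, lam_tendsto.eventually_gt_atTop 0] with ε h3 hε hl
    rw [div_lt_iff₀ hl] at h3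
    have hb : ∀ p, |(a p).re| ≤ Fintype.card ι := fun p =>
      (Complex.abs_re_le_norm _).trans (hab p)
    have h7 : |EP N ε fun p => (a p).re| ≤ Fintype.card ι * EP N ε fun _ => 1 := by
      rw [abs_le]
      constructor
      · have h8 := EP_le hN hε (φ := fun p => -(a p).re) (B := Fintype.card ι)
          (fun p => by rw [abs_neg]; exact hb p) (b := Fintype.card ι)
          (fun p => (neg_le_abs _).trans (hb p))
        have h9 : EP N ε (fun p => -(a p).re) = -EP N ε fun p => (a p).re := by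
          rw [← neg_one_mul, ← EP_const_mul]
          congr 1
          funext p
          ring
        rw [h9] at h8
        linarith
      · exact EP_le hN hε (φ := fun p => (a p).re) (B := Fintype.card ι) hb
          (b := Fintype.card ι) (fun p => (le_abs_self _).trans (hb p))
    have h8 : (0 : ℝ) ≤ Fintype.card ι := by positivity
    nlinarith
  have hcmp := size_compare hlamy (hC'.mono fun ε h => h.2)
  have hLf : Lim N f x ↔ Lim N (fun p => (a p).re) x := by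
    have h2 : ∀ p, p ∉ S → f p = (a p).re := by
      intro p hp
      rw [hf p hp, ha]
      simp only
      rw [if_pos hp]
    exact ⟨fun h => h.of_fin hN S h2, fun h => h.of_fin hN S fun p hp => (h2 p hp).symm⟩
  rw [hLf]
  constructor
  · intro h
    have h2 := h.lim.sub hcmp
    rw [sub_zero] at h2
    exact h2.congr fun ε => by ring
  · intro h
    refine ⟨⟨Fintype.card ι, fun p => (Complex.abs_re_le_norm _).trans (hab p)⟩, ?_⟩
    have h2 := h.add hcmp
    rw [add_zero] at h2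
    exact h2.congr fun ε => by ring

end

/-- A meromorphic continuation has an integral order. -/
theorem mero {L Λ : ℂ → ℂ} {s₀ : ℂ} (hL : ∀ᶠ ε : ℝ in 𝓝[>] 0, L (s₀ + ε) ≠ 0)
    (hΛ : MeromorphicAt Λ s₀) (hΛL : ∀ᶠ s in 𝓝 s₀, s₀.re < s.re → Λ s = L s) :
    ∃ m : ℤ, meromorphicOrderAt Λ s₀ = m ∧
      Tendsto (fun ε : ℝ => Real.log ‖L (s₀ + ε)‖ / Real.log (1 / ε)) (𝓝[>] 0)
        (𝓝 (-(m : ℝ))) := by
  have hpath : Tendsto (fun ε : ℝ => s₀ + ε) (𝓝[>] 0) (𝓝 s₀) := by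
    have : ContinuousAt (fun ε : ℝ => s₀ + ε) 0 := by fun_prop
    have h2 := this.tendsto
    simp only [ofReal_zero, add_zero] at h2
    exact h2.mono_left nhdsWithin_le_nhds
  have heq : ∀ᶠ ε : ℝ in 𝓝[>] 0, Λ (s₀ + ε) = L (s₀ + ε) := by
    filter_upwards [hpath.eventually hΛL, self_mem_nhdsWithin] with ε h1 h2
    exact h1 (by simpa using h2)
  obtain ⟨m, hm, hlim⟩ := order_of_size hΛ (by
    filter_upwards [heq, hL] with ε h1 h2
    rw [h1]
    exact h2)
  refine ⟨m, hm, hlim.congr' ?_⟩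
  filter_upwards [heq] with ε h1
  rw [h1]

end Pool.Agent.V8H32.Coh
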