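import Pool.Agent.V8H32.Coh.Dec

/-!
# Positive definite functions with integral values and `φ 0 = 2`
-/

set_option autoImplicit false

namespace Pool.Agent.V8H32.Coh

open Filter Topology Pool.Agent.H235R3.PT
open scoped RealInnerProductSpace

section

variable {G : Type*} [AddCommGroup G]

/-- The three-term sequence. -/
theorem three_term {c : ℤ → ℝ} {s : ℝ} (hs : s * s = 1) (h0 : c 0 = 2) (h1 : c 1 = s)
    (h1' : c (-1) = s) (h2 : ∀ m : ℤ, 2 ≤ |m| → c m = 0) {j n : ℕ} (hj : j ≤ n) :
    ∑ i ∈ Finset.range (n + 1), (-s) ^ i * c ((j : ℤ) - i) =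
      (-s) ^ j * ((if j = 0 then 1 else 0) + (if j = n then 1 else 0)) := by
  have hss : (-s) * s = -1 := by linarith
  have key : ∀ n : ℕ, j ≤ n → ∑ i ∈ Finset.range (n + 1), (-s) ^ i * c ((j : ℤ) - i) =
      (-s) ^ j * ((if j = 0 then 1 else 0) + (if j = n then 1 else 0)) := by
    intro n hn
    induction n, hn using Nat.le_induction with
    | base =>
      rw [Finset.sum_range_succ]
      rcases Nat.eq_zero_or_pos j with rfl | hj0
      · simp only [zero_add, Finset.range_zero, Finset.sum_empty, pow_zero, Nat.cast_zero, sub_zero, h0, if_true]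
        norm_num
      · obtain ⟨k, rfl⟩ : ∃ k, j = k + 1 := ⟨j - 1, by omega⟩
        rw [Finset.sum_range_succ, Finset.sum_eq_zero]
        · rw [show (((k + 1 : ℕ) : ℤ) - (k : ℕ)) = 1 by push_cast; ring,
            show (((k + 1 : ℕ) : ℤ) - ((k + 1 : ℕ) : ℤ)) = 0 by ring, h0, h1]
          simp only [Nat.succ_ne_zero, if_false, if_true]
          have : (-s) ^ k * s = -(-s) ^ (k + 1) := by ring
          rw [this]
          ring
        · intro i hi
          rw [Finset.mem_range] at hi
          rw [h2 _ (by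
            rw [abs_of_nonneg (by push_cast; omega)]
            push_cast
            omega), mul_zero]
    | succ n hn ih =>
      rw [Finset.sum_range_succ, ih]
      rcases eq_or_lt_of_le hn with rfl | hlt
      · rw [show ((j : ℤ) - ((j + 1 : ℕ) : ℤ)) = -1 by push_cast; ring, h1']
        simp only [if_true, Nat.left_eq_add, one_ne_zero, if_false]
        have : (-s) ^ (j + 1) * s = -(-s) ^ j := by
          rw [pow_succ, mul_assoc, hss]
          ring
        rw [this]
        ring
      · rw [h2 _ (by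
            rw [abs_of_nonpos (by push_cast; omega)]
            push_cast
            omega), mul_zero]
        rw [if_neg (by omega : ¬ j = n), if_neg (by omega : ¬ j = n + 1)]
        ring
  exact key n hj

/-- **Classification of the integral positive definite functions of finite support with
`φ 0 = 2`.** -/
theorem top_two {φ : G → ℝ} (h : PD φ) (hint : ∀ x, IsInt (φ x)) (h0 : φ 0 = 2)
    (htf : ∀ (n : ℕ) (x : G), n ≠ 0 → n • x = 0 → x = 0) (hfin : {x | φ x ≠ 0}.Finite)
    {δ : G} (hδ : δ ≠ 0) (hδφ : φ δ ≠ 0) :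
    (φ δ = 1 ∨ φ δ = -1) ∧ ∀ x, x ≠ 0 → x ≠ δ → x ≠ -δ → φ x = 0 := by
  classical
  have hinj : ∀ x : G, x ≠ 0 → Function.Injective fun n : ℕ => n • x := by
    intro x hx m n hmn
    simp only at hmn
    wlog hlt : m ≤ n generalizing m n with H
    · exact (H hmn.symm (by omega)).symm
    by_contra hne
    have h1 : (n - m) • x = 0 := by
      rw [sub_nsmul x hlt, hmn]
      simp
    exact hx (htf _ x (by omega) h1)
  -- no periods
  have hper : ∀ x : G, x ≠ 0 → φ x ≠ 2 := by
    intro x hx h1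
    have h2 : ∀ n : ℕ, φ (n • x) = 2 := by
      intro n
      induction n with
      | zero => simpa using h0
      | succ n ih =>
        rw [succ_nsmul, periodic h (h1.trans h0.symm), ih]
    have h3 : (Set.range fun n : ℕ => n • x) ⊆ {x | φ x ≠ 0} := by
      rintro _ ⟨n, rfl⟩
      simp only [Set.mem_ofPred_eq]
      rw [h2]
      norm_num
    exact (Set.infinite_range_of_injective (hinj x hx)) (hfin.subset h3)
  have hanti : ∀ x : G, x ≠ 0 → φ x ≠ -2 := by
    intro x hx h1
    have h2 : φ (x + x) = 2 := by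
      rw [antiperiodic h (by rw [h1, h0]), h1]
      norm_num
    refine hper (x + x) ?_ h2
    intro h3
    rw [← two_nsmul] at h3
    exact hx (htf 2 x two_ne_zero h3)
  have hpm : ∀ x : G, x ≠ 0 → φ x ≠ 0 → φ x = 1 ∨ φ x = -1 := by
    intro x hx hx0
    obtain ⟨n, hn⟩ := hint x
    have h1 := h.abs_le x
    rw [h0, hn] at h1
    have h2 : |n| ≤ 2 := by exact_mod_cast h1
    have h3 : n ≠ 0 := by
      rintro rfl
      exact hx0 (by rw [hn]; simp)
    have h4 : n ≠ 2 := by
      rintro rfl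
      exact hper x hx (by rw [hn]; norm_num)
    have h5 : n ≠ -2 := by
      rintro rfl
      exact hanti x hx (by rw [hn]; norm_num)
    rw [abs_le] at h2
    have h6 : n = 1 ∨ n = -1 := by omega
    rcases h6 with rfl | rfl
    · left; rw [hn]; norm_num
    · right; rw [hn]; norm_num
  -- the largest multiple in the support
  obtain ⟨m, hm1, hm2⟩ : ∃ m : ℕ, (1 ≤ m ∧ φ (m • δ) ≠ 0) ∧ ∀ k : ℕ, m < k → φ (k • δ) = 0 := by
    have h1 : {k : ℕ | φ (k • δ) ≠ 0}.Finite :=
      hfin.preimage ((hinj δ hδ).injOn)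
    have h2 : ∃ k ∈ h1.toFinset, 1 ≤ k := ⟨1, by simpa using hδφ, le_rfl⟩
    obtain ⟨k, hk1, hk2⟩ := h2
    refine ⟨h1.toFinset.max' ⟨k, hk1⟩, ⟨hk2.trans (Finset.le_max' _ _ hk1), ?_⟩, fun l hl => ?_⟩
    · have := h1.toFinset.max'_mem ⟨k, hk1⟩
      simpa using this
    · by_contra h3
      have h4 : l ∈ h1.toFinset := by simpa using h3
      exact absurd (Finset.le_max' _ _ h4) (by omega)
  set γ := m • δ with hγ
  have hγ0 : γ ≠ 0 := fun h1 => hδ (htf m δ (by omega) h1)
  obtain ⟨s, hs⟩ : ∃ s, s = φ γ := ⟨_, rfl⟩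
  have hs' : s = 1 ∨ s = -1 := by
    rw [hs]
    exact hpm γ hγ0 hm1.2
  have hss : s * s = 1 := by rcases hs' with h1 | h1 <;> rw [h1] <;> norm_num
  have hsint : IsInt (-s) := by rw [hs]; exact (hint γ).neg
  have hc2 : ∀ k : ℤ, 2 ≤ |k| → φ (k • γ) = 0 := by
    intro k hk
    have h1 : ∀ l : ℕ, 2 ≤ l → φ (l • γ) = 0 := by
      intro l hl
      rw [hγ, ← mul_nsmul']
      exact hm2 _ (by nlinarith [hm1.1])
    rcases abs_choice k with h2 | h2
    · rw [h2] at hk
      lift k to ℕ using by omega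
      rw [natCast_zsmul]
      exact h1 k (by omega)
    · rw [h2] at hk
      obtain ⟨l, hl⟩ : ∃ l : ℕ, -k = l := ⟨(-k).toNat, by omega⟩
      rw [← h.symm, ← neg_zsmul, hl, natCast_zsmul]
      exact h1 l (by omega)
  have : Fact (PD φ) := ⟨h⟩
  set R := rep φ with hR
  set v := vec φ with hv
  have hcoef : ∀ a b : G, ⟪R.U a v, R.U b v⟫ = φ (a - b) := inner_rep φ
  -- the vectors `u n`
  let u : ℕ → HS φ := fun n => ∑ i ∈ Finset.range (n + 1), (-s) ^ i • R.U ((i : ℤ) • γ) v
  have hu : ∀ j n : ℕ, j ≤ n → ⟪R.U ((j : ℤ) • γ) v, u n⟫ =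
      (-s) ^ j * ((if j = 0 then 1 else 0) + (if j = n then 1 else 0)) := by
    intro j n hj
    rw [← three_term (c := fun k => φ (k • γ)) hss (by simpa using h0) (by simpa using hs.symm)
      (by simp [h.symm, ← hs]) hc2 hj]
    simp only [u]
    rw [inner_sum]
    refine Finset.sum_congr rfl fun i _ => ?_
    rw [real_inner_smul_right, hcoef, ← sub_smul]
  have hun : ∀ n, ‖u n‖ ^ 2 = 2 := by
    intro n
    rw [← real_inner_self_eq_norm_sq]
    have h1 : ⟪u n, u n⟫ = ∑ j ∈ Finset.range (n + 1),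
        ((if j = 0 then 1 else 0) + (if j = n then (1 : ℝ) else 0)) := by
      conv_lhs => enter [2]; simp only [u]
      rw [sum_inner]
      refine Finset.sum_congr rfl fun j hj => ?_
      rw [real_inner_smul_left, hu j n (by rw [Finset.mem_range] at hj; omega)]
      rw [← mul_assoc, ← mul_pow, show (-s) * (-s) = 1 by linarith, one_pow, one_mul]
    rw [h1, Finset.sum_add_distrib]
    simp
    norm_num
  obtain ⟨e, he⟩ := exists_wlim (Filter.hyperfilter ℕ) u (Real.sqrt 2) fun n => by
    rw [← hun n, Real.sqrt_sq (norm_nonneg _)]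
  have hbig : ∀ k : ℕ, ∀ᶠ n in (Filter.hyperfilter ℕ : Filter ℕ), k < n := by
    intro k
    have : ∀ᶠ n in (cofinite : Filter ℕ), k < n := by
      rw [Nat.cofinite_eq_atTop]
      exact eventually_gt_atTop k
    exact Filter.hyperfilter_le_cofinite this
  have hve : ∀ j : ℕ, ⟪R.U ((j : ℤ) • γ) v, e⟫ = (-s) ^ j * (if j = 0 then 1 else 0) := by
    intro j
    refine tendsto_nhds_unique (he.right _) ?_
    refine tendsto_const_nhds.congr' ?_
    filter_upwards [hbig j] with n hn
    rw [hu j n hn.le, if_neg (by omega : ¬ j = n), add_zero]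
  have hue : ∀ n, ⟪u n, e⟫ = 1 := by
    intro n
    simp only [u]
    rw [sum_inner, Finset.sum_eq_single 0]
    · rw [real_inner_smul_left, hve]
      simp
    · intro j _ hj
      rw [real_inner_smul_left, hve, if_neg hj]
      simp
    · intro h1
      exact absurd (Finset.mem_range.2 (Nat.succ_pos n)) h1
  have hee : ‖e‖ ^ 2 = 1 := by
    rw [← real_inner_self_eq_norm_sq]
    refine tendsto_nhds_unique (he e) ?_
    refine tendsto_const_nhds.congr fun n => (hue n).symm
  -- the translates tend to zero weakly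
  have hw0 : WLim (Filter.hyperfilter ℕ : Filter ℕ) (fun n : ℕ => R.U (((n + 1 : ℕ) : ℤ) • γ) v)
      0 := by
    obtain ⟨g, hg⟩ := exists_wlim (Filter.hyperfilter ℕ)
      (fun n : ℕ => R.U (((n + 1 : ℕ) : ℤ) • γ) v) ‖v‖ fun n => by rw [LinearIsometry.norm_map]
    have h1 : ∀ b, ⟪g, R.U b v⟫ = 0 := by
      intro b
      refine tendsto_nhds_unique (hg _) ?_
      refine tendsto_const_nhds.congr' ?_
      have h2 : {n : ℕ | φ (((n + 1 : ℕ) : ℤ) • γ - b) ≠ 0}.Finite := by
        refine hfin.preimage (Function.Injective.injOn ?_)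
        intro n n' hnn
        simp only [natCast_zsmul] at hnn
        have h3 := sub_left_injective hnn
        have := hinj γ hγ0 h3
        omega
      have h3 : ∀ᶠ n in (Filter.hyperfilter ℕ : Filter ℕ),
          φ (((n + 1 : ℕ) : ℤ) • γ - b) = 0 := by
        apply Filter.hyperfilter_le_cofinite
        simpa [Filter.mem_cofinite, Set.compl_ofPred] using h2
      filter_upwards [h3] with n h4
      rw [hcoef, h4]
    have h2 : g = 0 := by
      have h3 : ‖g‖ ^ 2 = 0 := by
        rw [← real_inner_self_eq_norm_sq]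
        refine tendsto_nhds_unique (hg.right g) ?_
        exact tendsto_const_nhds.congr fun n => (h1 _).symm
      exact norm_eq_zero.1 (pow_eq_zero_iff two_ne_zero |>.1 h3)
    rwa [h2] at hg
  have hrec : ∀ n, u n + s • R.U γ (u n) = v - (-s) ^ (n + 1) • R.U (((n + 1 : ℕ) : ℤ) • γ) v := by
    intro n
    induction n with
    | zero =>
      simp only [u]
      rw [Finset.sum_range_one]
      simp only [pow_zero, one_smul, Nat.cast_zero, zero_smul, zero_add, pow_one, Nat.cast_one,
        neg_smul, sub_neg_eq_add]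
      rw [R.zero]
    | succ n ih =>
      have h1 : u (n + 1) = u n + (-s) ^ (n + 1) • R.U (((n + 1 : ℕ) : ℤ) • γ) v :=
        Finset.sum_range_succ _ _
      rw [h1, map_add, smul_add, map_smul, ← R.add]
      have h2 : γ + ((n + 1 : ℕ) : ℤ) • γ = ((n + 1 + 1 : ℕ) : ℤ) • γ := by
        rw [show ((n + 1 + 1 : ℕ) : ℤ) = ((n + 1 : ℕ) : ℤ) + 1 by push_cast; ring, add_smul,
          one_smul, add_comm]
      rw [h2]
      have h3 : u n + (-s) ^ (n + 1) • R.U (((n + 1 : ℕ) : ℤ) • γ) v +
          (s • R.U γ (u n) + s • (-s) ^ (n + 1) • R.U (((n + 1 + 1 : ℕ) : ℤ) • γ) v) =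
          (u n + s • R.U γ (u n)) + (-s) ^ (n + 1) • R.U (((n + 1 : ℕ) : ℤ) • γ) v +
          s • (-s) ^ (n + 1) • R.U (((n + 1 + 1 : ℕ) : ℤ) • γ) v := by abel
      rw [h3, ih, smul_smul, show s * (-s) ^ (n + 1) = -(-s) ^ (n + 1 + 1) by ring, neg_smul]
      abel
  have hve' : v = e + s • R.U γ e := by
    have h1 : ∀ x, ⟪v, x⟫ = ⟪e + s • R.U γ e, x⟫ := by
      intro x
      have h2 : Tendsto (fun n => ⟪u n, x⟫ + s * ⟪u n, R.U (-γ) x⟫)
          (Filter.hyperfilter ℕ : Filter ℕ) (𝓝 (⟪e, x⟫ + s * ⟪e, R.U (-γ) x⟫)) :=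
        (he x).add ((he _).const_mul s)
      have h3 : Tendsto (fun n : ℕ => ⟪v, x⟫ -
          (-s) ^ (n + 1) * ⟪R.U (((n + 1 : ℕ) : ℤ) • γ) v, x⟫)
          (Filter.hyperfilter ℕ : Filter ℕ) (𝓝 (⟪v, x⟫ - 0)) := by
        refine tendsto_const_nhds.sub ?_
        have h4 := hw0 x
        rw [inner_zero_left] at h4
        refine squeeze_zero_norm (a := fun n : ℕ => |⟪R.U (((n + 1 : ℕ) : ℤ) • γ) v, x⟫|)
          (fun n => ?_) (by simpa using h4.abs)
        rw [norm_mul, norm_pow, norm_neg]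
        have : ‖s‖ = 1 := by rcases hs' with h5 | h5 <;> rw [h5] <;> simp
        rw [this, one_pow, one_mul, Real.norm_eq_abs]
      have h4 : (fun n => ⟪u n, x⟫ + s * ⟪u n, R.U (-γ) x⟫) = fun n : ℕ => ⟪v, x⟫ -
          (-s) ^ (n + 1) * ⟪R.U (((n + 1 : ℕ) : ℤ) • γ) v, x⟫ := by
        funext n
        have h5 : ⟪u n + s • R.U γ (u n), x⟫ =
            ⟪v - (-s) ^ (n + 1) • R.U (((n + 1 : ℕ) : ℤ) • γ) v, x⟫ := by rw [hrec n]
        rw [inner_add_left, inner_sub_left, real_inner_smul_left, real_inner_smul_left] at h5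
        rw [← h5, R.inner_left]
      rw [h4] at h2
      have h5 := tendsto_nhds_unique h2 h3
      rw [inner_add_left, real_inner_smul_left, R.inner_left]
      linarith
    exact ext_inner_right ℝ h1
  -- integrality
  have hint_e : ∀ b, IsInt ⟪R.U b e, e⟫ := by
    intro b
    have h1 : ∀ (a b : G), IsInt ⟪R.U b (R.U a v), e⟫ := by
      intro a b
      refine IsInt.of_tendsto (he.right _) (Filter.Eventually.of_forall fun n => ?_)
      simp only [u]
      rw [inner_sum]
      refine Finset.sum_induction _ IsInt (fun _ _ => IsInt.add) ⟨0, by simp⟩ fun i _ => ?_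
      rw [real_inner_smul_right, ← R.add, hcoef]
      refine IsInt.mul ?_ (hint _)
      obtain ⟨a', ha'⟩ := hsint
      exact ⟨a' ^ i, by rw [ha']; push_cast; rfl⟩
    have h2 : Tendsto (fun n => ⟪R.U b (u n), e⟫) (Filter.hyperfilter ℕ : Filter ℕ)
        (𝓝 ⟪R.U b e, e⟫) := by
      have h3 := he (R.U (-b) e)
      rw [← R.inner_left] at h3
      exact h3.congr fun n => (R.inner_left b (u n) e).symm
    refine IsInt.of_tendsto h2 (Filter.Eventually.of_forall fun n => ?_)
    simp only [u]
    rw [map_sum, sum_inner]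
    refine Finset.sum_induction _ IsInt (fun _ _ => IsInt.add) ⟨0, by simp⟩ fun i _ => ?_
    rw [map_smul, real_inner_smul_left]
    refine IsInt.mul ?_ (h1 _ _)
    obtain ⟨a', ha'⟩ := hsint
    refine ⟨a' ^ i, ?_⟩
    rw [ha']
    push_cast
    rfl
  have hg : ∀ b, b ≠ 0 → ⟪R.U b e, e⟫ = 0 := by
    intro b hb
    by_contra hne
    have h1 := (hint_e b).one_le_abs hne
    have hU : R.U (b + b) e = e := by
      rcases le_abs.1 h1 with h2 | h2
      · have h3 : R.U b e = e := by
          have h4 : ‖R.U b e - e‖ ^ 2 ≤ 0 := by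
            rw [norm_sub_sq_real, LinearIsometry.norm_map, hee]
            linarith
          have h5 : ‖R.U b e - e‖ = 0 := by
            have := le_antisymm h4 (by positivity)
            exact pow_eq_zero_iff two_ne_zero |>.1 this
          rwa [norm_eq_zero, sub_eq_zero] at h5
        rw [R.add, h3, h3]
      · have h3 : R.U b e = -e := by
          have h4 : ‖R.U b e + e‖ ^ 2 ≤ 0 := by
            rw [norm_add_sq_real, LinearIsometry.norm_map, hee]
            linarith
          have h5 : ‖R.U b e + e‖ = 0 := by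
            have := le_antisymm h4 (by positivity)
            exact pow_eq_zero_iff two_ne_zero |>.1 this
          rw [norm_eq_zero] at h5
          exact eq_neg_of_add_eq_zero_left h5
        rw [R.add, h3, map_neg, h3, neg_neg]
    have hUv : R.U (b + b) v = v := by
      have h2 : R.U (b + b) (R.U γ e) = R.U γ e := by
        rw [← R.add, add_comm, R.add, hU]
      conv_lhs => rw [hve']
      rw [map_add, map_smul, h2, hU, ← hve']
    have h3 : φ (b + b) = 2 := by
      rw [← inner_rep' φ, ← hR, ← hv, hUv, real_inner_self_eq_norm_sq, hv, norm_vec, h0]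
    refine hper (b + b) ?_ h3
    intro h4
    rw [← two_nsmul] at h4
    exact hb (htf 2 b two_ne_zero h4)
  have hform : ∀ x, φ x = 2 * ⟪R.U x e, e⟫ + s * ⟪R.U (x + γ) e, e⟫ + s * ⟪R.U (x - γ) e, e⟫ := by
    intro x
    have h1 : φ x = ⟪R.U x v, v⟫ := (inner_rep' φ x).symm
    rw [h1]
    conv_lhs => rw [hve']
    rw [map_add, map_smul, inner_add_left, inner_add_right, inner_add_right, real_inner_smul_left,
      real_inner_smul_left, real_inner_smul_right, real_inner_smul_right, ← R.add]
    have h2 : ⟪R.U (x + γ) e, R.U γ e⟫ = ⟪R.U x e, e⟫ := by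
      rw [add_comm, R.add, R.inner_map]
    have h3 : ⟪R.U x e, R.U γ e⟫ = ⟪R.U (x - γ) e, e⟫ := by
      rw [R.inner_right, ← R.add]
      congr 2
      abel_nf
    rw [h2, h3, ← mul_assoc, hss]
    ring
  have hsupp : ∀ x, φ x ≠ 0 → x = 0 ∨ x = γ ∨ x = -γ := by
    intro x hx
    by_contra hcon
    push Not at hcon
    apply hx
    rw [hform x, hg x hcon.1, hg (x + γ) (fun h1 => hcon.2.2 (eq_neg_of_add_eq_zero_left h1)),
      hg (x - γ) (fun h1 => hcon.2.1 (sub_eq_zero.1 h1))]
    ring
  refine ⟨hpm δ hδ hδφ, fun x hx0 hx1 hx2 => ?_⟩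
  by_contra hne
  rcases hsupp δ hδφ with h1 | h1 | h1
  · exact hδ h1
  · rcases hsupp x hne with h2 | h2 | h2
    · exact hx0 h2
    · exact hx1 (by rw [h2, ← h1])
    · exact hx2 (by rw [h2, ← h1])
  · rcases hsupp x hne with h2 | h2 | h2
    · exact hx0 h2
    · exact hx2 (by rw [h2, h1, neg_neg])
    · exact hx1 (by rw [h2, h1])

end

end Pool.Agent.V8H32.Coh
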